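import Pool.Agent.H11.TriD

set_option autoImplicit false
open MeasureTheory Set

namespace Pool.Agent.Results.MP_9d21cc_co.Area

/-- area of the possibly degenerate triangle with vertices `p q r` -/
noncomputable def triArea (p q r : EuclideanSpace ℝ (Fin 2)) : ℝ :=
  |(q 0 - p 0) * (r 1 - p 1) - (q 1 - p 1) * (r 0 - p 0)| / 2

noncomputable def φ : EuclideanSpace ℝ (Fin 2) →ₗ[ℝ] ℝ × ℝ where
  toFun v := (v 0, v 1)
  map_add' _ _ := rfl
  map_smul' _ _ := rfl

lemma vol_eq (s : Set (EuclideanSpace ℝ (Fin 2))) : volume (φ '' s) = volume s := by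
  let e : EuclideanSpace ℝ (Fin 2) ≃ᵐ ℝ × ℝ :=
    (MeasurableEquiv.toLp 2 (Fin 2 → ℝ)).symm.trans MeasurableEquiv.finTwoArrow
  have he : MeasurePreserving e volume volume :=
    (volume_preserving_finTwoArrow ℝ).comp (EuclideanSpace.volume_preserving_symm_measurableEquiv_toLp (Fin 2))
  have h1 : φ '' s = e '' s := rfl
  rw [h1, ← he.measure_preimage_equiv, e.injective.preimage_image]

open Pool.Agent.H11.Tri in
theorem result (n : ℕ) (x y : Fin n → EuclideanSpace ℝ (Fin 2))
    (hT : ∀ i j k : Fin n, i ≤ j → j ≤ k →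
      triArea (y i) (y j) (y k) ≤ triArea (x i) (x j) (x k)) :
    volume (convexHull ℝ (Set.range y)) ≤ volume (convexHull ℝ (Set.range x)) := by
  have h0 : ∀ i j k : Fin n, i ≤ j → j ≤ k →
      |D (φ (y i)) (φ (y j)) (φ (y k))| ≤ |D (φ (x i)) (φ (x j)) (φ (x k))| := by
    intro i j k h1 h2
    have := hT i j k h1 h2
    unfold triArea at this
    have h3 := (div_le_div_iff_of_pos_right (by norm_num : (0 : ℝ) < 2)).1 this
    exact h3
  have sw : ∀ a b c : P, |D a c b| = |D a b c| := fun a b c => by rw [Dswap, abs_neg]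
  have cy : ∀ a b c : P, |D b c a| = |D a b c| := fun a b c => by rw [Dcyc]
  have h1 : ∀ i j k : Fin n,
      |D (φ (y i)) (φ (y j)) (φ (y k))| ≤ |D (φ (x i)) (φ (x j)) (φ (x k))| := by
    intro i j k
    rcases le_total i j with a | a <;> rcases le_total j k with b | b <;>
      rcases le_total i k with c | c
    · exact h0 i j k a b
    · exact h0 i j k a b
    · rw [sw, sw (φ (x i))]; exact h0 i k j c b
    · rw [cy (φ (y k)), cy (φ (x k))]; exact h0 k i j c a
    · rw [cy (φ (y k)), cy (φ (x k)), cy (φ (y j)), cy (φ (x j)), sw, sw (φ (x j))]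
      exact h0 j i k a c
    · rw [cy (φ (y k)), cy (φ (x k)), cy (φ (y j)), cy (φ (x j))]
      exact h0 j k i b c
    · rw [sw, sw (φ (x i))]; exact h0 i k j c b
    · rw [cy (φ (y k)), cy (φ (x k)), sw, sw (φ (x k))]; exact h0 k j i b a
  have hm := main (x := fun i => φ (x i)) (y := fun i => φ (y i)) h1 Finset.univ
  have e : ∀ z : Fin n → EuclideanSpace ℝ (Fin 2),
      K (fun i => φ (z i)) Finset.univ = φ '' convexHull ℝ (Set.range z) := by
    intro z
    rw [LinearMap.image_convexHull, K, Finset.coe_univ, image_univ, ← range_comp]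
    rfl
  rwa [e, e, vol_eq, vol_eq] at hm

end Pool.Agent.Results.MP_9d21cc_co.Area
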